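import Mathlib

/-!
Unbounded population ratio of periodic patterns in a reversible ESPCA.
-/

namespace Pool.Agent.Results.MP_b5d889_lc.UnboundedRatio

/-- The state `(t, r, b, l)` of a cell: `true` in a part means that the part holds a particle. -/
abbrev Cell : Type := Bool × Bool × Bool × Bool

/-- The cell state with no particle. -/
def blank : Cell := (false, false, false, false)

/-- The rotation `(t, r, b, l) ↦ (l, t, r, b)` of cell states. -/
def rot (s : Cell) : Cell := (s.2.2.2, s.1, s.2.1, s.2.2.1)

/-- `f` is the local function of an elementary square partitioned cellular automaton: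
it fixes the blank state and commutes with the rotation. -/
structure IsESPCA (f : Cell → Cell) : Prop where
  blank_eq : f blank = blank
  rot_comm : ∀ s, f (rot s) = rot (f s)

/-- Configurations of the cell space `ℤ × ℤ`. -/
abbrev Config : Type := ℤ × ℤ → Cell

/-- One time step of the ESPCA with local function `f`: the new state of the cell `p` is `f`
applied to the bottom part of the upper neighbour, the left part of the right neighbour, the top
part of the lower neighbour and the right part of the left neighbour. -/
def step (f : Cell → Cell) (c : Config) : Config := fun p =>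
  f ((c (p.1, p.2 + 1)).2.2.1, (c (p.1 + 1, p.2)).2.2.2, (c (p.1, p.2 - 1)).1,
    (c (p.1 - 1, p.2)).2.1)

/-- The number of particles in a cell state. -/
def cellPop (s : Cell) : ℕ := s.1.toNat + s.2.1.toNat + s.2.2.1.toNat + s.2.2.2.toNat

/-- A pattern: a configuration with finitely many particles, at least one. -/
def IsPattern (c : Config) : Prop := {p | c p ≠ blank}.Finite ∧ ∃ p, c p ≠ blank

/-- The population of a configuration: its number of particles. -/
noncomputable def population (c : Config) : ℕ := ∑ᶠ p, cellPop (c p)

/-- The set of the populations of `c, F c, ..., F^(p-1) c`, with `F` the global map. -/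
def populations (f : Cell → Cell) (c : Config) (p : ℕ) : Set ℕ :=
  {n | ∃ i < p, n = population ((step f)^[i] c)}

/-! ### The rule -/

/-- The local function used: it fixes every state with at most one particle, and the full state. -/
def rule : Cell → Cell
  | (true, true, false, false) => (true, false, true, true)
  | (false, true, true, false) => (true, true, false, true)
  | (false, false, true, true) => (true, true, true, false)
  | (true, false, false, true) => (false, true, true, true)
  | (true, false, true, false) => (false, true, false, true)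
  | (false, true, false, true) => (true, false, true, false)
  | (true, true, true, false) => (true, true, false, false)
  | (false, true, true, true) => (false, true, true, false)
  | (true, false, true, true) => (false, false, true, true)
  | (true, true, false, true) => (true, false, false, true)
  | s => s

theorem rule_isESPCA : IsESPCA rule where
  blank_eq := by decide
  rot_comm := by decide

theorem rule_bijective : Function.Bijective rule := by
  rw [Fintype.bijective_iff_injective_and_card]
  refine ⟨?_, rfl⟩
  intro a b
  revert a b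
  decide

/-! ### Injectivity of the global map -/

theorem step_injective (f : Cell → Cell) (hf : Function.Injective f) :
    Function.Injective (step f) := by
  intro c c' h
  have key : ∀ p : ℤ × ℤ,
      ((c (p.1, p.2 + 1)).2.2.1, (c (p.1 + 1, p.2)).2.2.2, (c (p.1, p.2 - 1)).1,
        (c (p.1 - 1, p.2)).2.1) =
      ((c' (p.1, p.2 + 1)).2.2.1, (c' (p.1 + 1, p.2)).2.2.2, (c' (p.1, p.2 - 1)).1,
        (c' (p.1 - 1, p.2)).2.1) := fun p => hf (congrFun h p)
  funext p
  obtain ⟨x, y⟩ := p
  have h1 := key (x, y + 1)
  have h2 := key (x + 1, y)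
  have h3 := key (x, y - 1)
  have h4 := key (x - 1, y)
  simp only [Prod.mk.injEq, add_sub_cancel_right, sub_add_cancel] at h1 h2 h3 h4
  exact Prod.ext h1.2.2.1 (Prod.ext h2.2.2.2 (Prod.ext h3.1 h4.2.1))

/-! ### Confinement: every pattern is periodic -/

/-- The box of side `2 N + 1`. -/
def InBox (N : ℤ) (x y : ℤ) : Prop := -N ≤ x ∧ x ≤ N ∧ -N ≤ y ∧ y ≤ N

/-- Every particle of `c` is in the box or faces a cell of the box. -/
def Confined (N : ℤ) (c : Config) : Prop :=
  ∀ x y : ℤ, ((c (x, y)).1 = true → InBox N x y ∨ InBox N x (y + 1)) ∧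
    ((c (x, y)).2.1 = true → InBox N x y ∨ InBox N (x + 1) y) ∧
    ((c (x, y)).2.2.1 = true → InBox N x y ∨ InBox N x (y - 1)) ∧
    ((c (x, y)).2.2.2 = true → InBox N x y ∨ InBox N (x - 1) y)

theorem confined_step (N : ℤ) (c : Config) (hc : Confined N c) : Confined N (step rule c) := by
  intro x y
  have ht := (hc x (y + 1)).2.2.1
  have hr := (hc (x + 1) y).2.2.2
  have hb := (hc x (y - 1)).1
  have hl := (hc (x - 1) y).2.1
  simp only [add_sub_cancel_right, sub_add_cancel] at ht hr hb hl
  simp only [step]
  generalize (c (x, y + 1)).2.2.1 = t at *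
  generalize (c (x + 1, y)).2.2.2 = r at *
  generalize (c (x, y - 1)).1 = b at *
  generalize (c (x - 1, y)).2.1 = l at *
  unfold InBox at *
  cases t <;> cases r <;> cases b <;> cases l <;> simp [rule] at ht hr hb hl ⊢ <;> omega

theorem confined_iterate (N : ℤ) (c : Config) (hc : Confined N c) (n : ℕ) :
    Confined N ((step rule)^[n] c) := by
  induction n with
  | zero => exact hc
  | succ n ih => rw [Function.iterate_succ_apply']; exact confined_step N _ ih

/-- The box of side `2 N + 3`, as a finite set. -/
noncomputable def bigBox (N : ℤ) : Finset (ℤ × ℤ) :=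
  Finset.Icc (-(N + 1)) (N + 1) ×ˢ Finset.Icc (-(N + 1)) (N + 1)

theorem confined_blank (N : ℤ) (c : Config) (hc : Confined N c) (p : ℤ × ℤ)
    (hp : p ∉ bigBox N) : c p = blank := by
  obtain ⟨x, y⟩ := p
  obtain ⟨h1, h2, h3, h4⟩ := hc x y
  simp only [bigBox, Finset.mem_product, Finset.mem_Icc] at hp
  unfold InBox at *
  have e1 : (c (x, y)).1 = false := by
    by_contra h; have := h1 (by simpa using h); omega
  have e2 : (c (x, y)).2.1 = false := by
    by_contra h; have := h2 (by simpa using h); omega
  have e3 : (c (x, y)).2.2.1 = false := by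
    by_contra h; have := h3 (by simpa using h); omega
  have e4 : (c (x, y)).2.2.2 = false := by
    by_contra h; have := h4 (by simpa using h); omega
  exact Prod.ext e1 (Prod.ext e2 (Prod.ext e3 e4))

theorem confined_finite (N : ℤ) (c : Config) (hc : Confined N c) : {p | c p ≠ blank}.Finite := by
  apply (bigBox N).finite_toSet.subset
  intro p hp
  by_contra h
  exact hp (confined_blank N c hc p h)

theorem finite_confined (N : ℤ) : Finite {c : Config // Confined N c} := by
  let Φ : {c : Config // Confined N c} → (bigBox N → Cell) := fun c p => c.1 p.1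
  apply Finite.of_injective Φ
  intro c c' h
  apply Subtype.ext
  funext p
  by_cases hp : p ∈ bigBox N
  · exact congrFun h ⟨p, hp⟩
  · rw [confined_blank N c.1 c.2 p hp, confined_blank N c'.1 c'.2 p hp]

theorem confined_periodic (N : ℤ) (c : Config) (hc : Confined N c) :
    ∃ p : ℕ, 1 ≤ p ∧ (step rule)^[p] c = c := by
  have := finite_confined N
  let g : {c : Config // Confined N c} → {c : Config // Confined N c} :=
    fun c => ⟨step rule c.1, confined_step N c.1 c.2⟩
  have hg : Function.Injective g := by
    intro a b h
    apply Subtype.ext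
    exact step_injective rule rule_bijective.1 (congrArg Subtype.val h)
  have hsemi : ∀ n : ℕ, ∀ a : {c : Config // Confined N c},
      (g^[n] a).1 = (step rule)^[n] a.1 := by
    intro n
    induction n with
    | zero => intro a; rfl
    | succ n ih => intro a; rw [Function.iterate_succ_apply, Function.iterate_succ_apply, ih]
  obtain ⟨p, hp, hper⟩ := hg.mem_periodicPts ⟨c, hc⟩
  refine ⟨p, hp, ?_⟩
  have := hsemi p ⟨c, hc⟩
  rw [← this]
  exact congrArg Subtype.val hper

/-! ### Counting particles -/

theorem cellPop_pos {s : Cell} (hs : s ≠ blank) : 1 ≤ cellPop s := by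
  revert s
  decide

theorem cellPop_le (s : Cell) : cellPop s ≤ 4 := by
  revert s
  decide

theorem cellPop_blank : cellPop blank = 0 := by decide

theorem population_eq_sum (c : Config) (s : Finset (ℤ × ℤ)) (hs : ∀ p, p ∉ s → c p = blank) :
    population c = ∑ p ∈ s, cellPop (c p) := by
  unfold population
  apply finsum_eq_sum_of_support_subset
  intro p hp
  by_contra h
  apply hp
  show cellPop (c p) = 0
  rw [hs p h, cellPop_blank]

theorem population_le (c : Config) (s : Finset (ℤ × ℤ)) (hs : ∀ p, p ∉ s → c p = blank) :
    population c ≤ 4 * s.card := by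
  rw [population_eq_sum c s hs]
  calc ∑ p ∈ s, cellPop (c p) ≤ ∑ _p ∈ s, 4 := Finset.sum_le_sum fun p _ => cellPop_le _
    _ = 4 * s.card := by rw [Finset.sum_const, smul_eq_mul, mul_comm]

theorem card_le_population (c : Config) (hc : {p | c p ≠ blank}.Finite) (s : Finset (ℤ × ℤ))
    (hs : ∀ p ∈ s, c p ≠ blank) : s.card ≤ population c := by
  have hsub : s ⊆ hc.toFinset := by
    intro p hp
    simpa using hs p hp
  rw [population_eq_sum c hc.toFinset (by intro p hp; simpa using hp)]
  calc s.card = ∑ _p ∈ s, 1 := by simp
    _ ≤ ∑ p ∈ s, cellPop (c p) := Finset.sum_le_sum fun p hp => cellPop_pos (hs p hp)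
    _ ≤ ∑ p ∈ hc.toFinset, cellPop (c p) := Finset.sum_le_sum_of_subset hsub

/-! ### The growing band -/

/-- The state, at time `t`, of the cells with `x - y = d` of the growing band. -/
def bandD (t d : ℤ) : Cell :=
  (decide ((d - t) % 2 = 0 ∧ -t ≤ d ∧ d ≤ t ∧ d ≠ t),
   decide ((d - t) % 2 = 0 ∧ -t ≤ d ∧ d ≤ t ∧ d ≠ t - 2),
   decide ((d - t) % 2 = 0 ∧ -t ≤ d ∧ d ≤ t ∧ d ≠ -t),
   decide ((d - t) % 2 = 0 ∧ -t ≤ d ∧ d ≤ t ∧ d ≠ 2 - t))

theorem rule_bandD (t d : ℤ) (ht : 2 ≤ t) :
    rule ((bandD t (d - 1)).2.2.1, (bandD t (d + 1)).2.2.2, (bandD t (d + 1)).1,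
      (bandD t (d - 1)).2.1) = bandD (t + 1) d := by
  unfold bandD
  simp only
  generalize hA : decide ((d - 1 - t) % 2 = 0 ∧ -t ≤ d - 1 ∧ d - 1 ≤ t ∧ d - 1 ≠ -t) = A
  generalize hB : decide ((d + 1 - t) % 2 = 0 ∧ -t ≤ d + 1 ∧ d + 1 ≤ t ∧ d + 1 ≠ 2 - t) = B
  generalize hC : decide ((d + 1 - t) % 2 = 0 ∧ -t ≤ d + 1 ∧ d + 1 ≤ t ∧ d + 1 ≠ t) = C
  generalize hD : decide ((d - 1 - t) % 2 = 0 ∧ -t ≤ d - 1 ∧ d - 1 ≤ t ∧ d - 1 ≠ t - 2) = D
  cases A <;> cases B <;> cases C <;> cases D <;>
  simp only [decide_eq_true_eq, decide_eq_false_iff_not] at hA hB hC hD <;>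
  refine Prod.ext ?_ (Prod.ext ?_ (Prod.ext ?_ ?_)) <;>
  first
  | (symm; apply decide_eq_true; omega)
  | (symm; apply decide_eq_false; omega)

/-- The growing band at time `t`. -/
def band (t : ℤ) : Config := fun p => bandD t (p.1 - p.2)

theorem step_band (t : ℤ) (ht : 2 ≤ t) : step rule (band t) = band (t + 1) := by
  funext p
  have h := rule_bandD t (p.1 - p.2) ht
  rw [band, ← h]
  simp only [step, band]
  rw [show p.1 - (p.2 + 1) = p.1 - p.2 - 1 by ring, show p.1 + 1 - p.2 = p.1 - p.2 + 1 by ring,
    show p.1 - (p.2 - 1) = p.1 - p.2 + 1 by ring, show p.1 - 1 - p.2 = p.1 - p.2 - 1 by ring]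

theorem iterate_band (n : ℕ) : (step rule)^[n] (band 2) = band (2 + n) := by
  induction n with
  | zero => simp
  | succ n ih =>
    rw [Function.iterate_succ_apply', ih, step_band _ (by omega)]
    push_cast
    rw [add_assoc]

/-! ### Locality -/

theorem step_agree (f : Cell → Cell) (R : ℤ) (c c' : Config)
    (h : ∀ p : ℤ × ℤ, |p.1 + p.2| ≤ R → c p = c' p) (p : ℤ × ℤ) (hp : |p.1 + p.2| ≤ R - 1) :
    step f c p = step f c' p := by
  simp only [step]
  rw [abs_le] at hp
  rw [h (p.1, p.2 + 1) (by rw [abs_le]; constructor <;> simp only <;> omega),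
    h (p.1 + 1, p.2) (by rw [abs_le]; constructor <;> simp only <;> omega),
    h (p.1, p.2 - 1) (by rw [abs_le]; constructor <;> simp only <;> omega),
    h (p.1 - 1, p.2) (by rw [abs_le]; constructor <;> simp only <;> omega)]

theorem iterate_agree (f : Cell → Cell) (R : ℤ) (c c' : Config)
    (h : ∀ p : ℤ × ℤ, |p.1 + p.2| ≤ R → c p = c' p) (n : ℕ) (p : ℤ × ℤ)
    (hp : |p.1 + p.2| ≤ R - n) : (step f)^[n] c p = (step f)^[n] c' p := by
  induction n generalizing p with
  | zero => exact h p (by simpa using hp)
  | succ n ih =>
    rw [Function.iterate_succ_apply', Function.iterate_succ_apply']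
    apply step_agree f (R - n) _ _ ih
    push_cast at hp
    linarith

/-! ### The initial patterns -/

/-- The initial pattern: the band at time `2`, cut off along the diagonal direction. -/
def start (K : ℕ) : Config := fun p => if |p.1 + p.2| ≤ 2 * (K : ℤ) then band 2 p else blank

theorem start_confined (K : ℕ) : Confined (K + 1) (start K) := by
  intro x y
  have hkey : ∀ s : Cell, start K (x, y) = s → s ≠ blank → InBox (K + 1) x y := by
    intro s hs hne
    unfold start at hs
    simp only at hs
    split_ifs at hs with hxy
    · rw [abs_le] at hxy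
      unfold InBox
      have : (x - y - 2) % 2 = 0 ∧ -2 ≤ x - y ∧ x - y ≤ 2 := by
        by_contra hcon
        apply hne
        rw [← hs]
        unfold band bandD blank
        simp only [Prod.mk.injEq, decide_eq_false_iff_not]
        omega
      omega
    · exact absurd hs.symm hne
  refine ⟨?_, ?_, ?_, ?_⟩
  · intro h; left
    apply hkey _ rfl
    intro hb; rw [hb] at h; simp [blank] at h
  · intro h; left
    apply hkey _ rfl
    intro hb; rw [hb] at h; simp [blank] at h
  · intro h; left
    apply hkey _ rfl
    intro hb; rw [hb] at h; simp [blank] at h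
  · intro h; left
    apply hkey _ rfl
    intro hb; rw [hb] at h; simp [blank] at h

/-- The cells that can be occupied in the initial pattern. -/
noncomputable def startCells (K : ℕ) : Finset (ℤ × ℤ) :=
  ((Finset.Icc (-(K : ℤ)) K) ×ˢ (Finset.Icc (-1 : ℤ) 1)).image fun q => (q.1 + q.2, q.1 - q.2)

theorem startCells_card (K : ℕ) : (startCells K).card ≤ (2 * K + 1) * 3 := by
  refine Finset.card_image_le.trans ?_
  rw [Finset.card_product, Int.card_Icc, Int.card_Icc]
  apply Nat.mul_le_mul <;> omega

theorem start_population_le (K : ℕ) : population (start K) ≤ 12 * (2 * K + 1) := by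
  have h : population (start K) ≤ 4 * (startCells K).card := by
    apply population_le
    intro p hp
    by_contra hne
    apply hp
    unfold start at hne
    split_ifs at hne with hxy
    · rw [abs_le] at hxy
      have : (p.1 - p.2 - 2) % 2 = 0 ∧ -2 ≤ p.1 - p.2 ∧ p.1 - p.2 ≤ 2 := by
        by_contra hcon
        apply hne
        unfold band bandD blank
        simp only [Prod.mk.injEq, decide_eq_false_iff_not]
        omega
      rw [startCells, Finset.mem_image]
      refine ⟨((p.1 + p.2) / 2, (p.1 - p.2) / 2), ?_, ?_⟩
      · rw [Finset.mem_product, Finset.mem_Icc, Finset.mem_Icc]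
        simp only
        omega
      · apply Prod.ext <;> simp only <;> omega
    · exact absurd rfl hne
  have := startCells_card K
  omega

/-- Cells that are certainly occupied at time `K`. -/
def lateCells (K : ℕ) : Finset (ℤ × ℤ) :=
  ((Finset.range (K + 1)) ×ˢ (Finset.range (K + 3))).image
    fun q => ((K : ℤ) + 1 - q.1 - q.2, (q.2 : ℤ) - q.1 - 1)

theorem lateCells_card (K : ℕ) : (lateCells K).card = (K + 1) * (K + 3) := by
  rw [lateCells, Finset.card_image_of_injective, Finset.card_product, Finset.card_range,
    Finset.card_range]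
  intro a b h
  simp only [Prod.mk.injEq] at h
  apply Prod.ext <;> omega

theorem late_population (K : ℕ) :
    (K + 1) * (K + 3) ≤ population ((step rule)^[K] (start K)) := by
  rw [← lateCells_card]
  apply card_le_population
  · exact confined_finite _ _ (confined_iterate _ _ (start_confined K) K)
  · intro p hp
    rw [lateCells, Finset.mem_image] at hp
    obtain ⟨⟨i, j⟩, hq, rfl⟩ := hp
    rw [Finset.mem_product, Finset.mem_range, Finset.mem_range] at hq
    simp only at hq
    have hagree : (step rule)^[K] (start K) ((K : ℤ) + 1 - i - j, (j : ℤ) - i - 1) =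
        (step rule)^[K] (band 2) ((K : ℤ) + 1 - i - j, (j : ℤ) - i - 1) := by
      apply iterate_agree rule (2 * (K : ℤ))
      · intro p hp
        simp only [start, hp, if_true]
      · rw [abs_le]
        simp only
        omega
    simp only
    rw [hagree, iterate_band]
    intro hb
    unfold band bandD blank at hb
    simp only [Prod.mk.injEq, decide_eq_false_iff_not] at hb
    omega

/-! ### The theorem -/

/-- There is a reversible ESPCA in which the ratio of the largest to the smallest population of a
periodic pattern takes arbitrarily large values. -/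
theorem result : ∃ f : Cell → Cell, IsESPCA f ∧ Function.Bijective f ∧
    ∀ M : ℝ, ∃ c : Config, IsPattern c ∧ ∃ p : ℕ, 1 ≤ p ∧ (step f)^[p] c = c ∧
      ∃ pmax pmin : ℕ, IsGreatest (populations f c p) pmax ∧ IsLeast (populations f c p) pmin ∧
        M < (pmax : ℝ) / (pmin : ℝ) := by
  refine ⟨rule, rule_isESPCA, rule_bijective, ?_⟩
  intro M
  obtain ⟨m, hm⟩ := exists_nat_gt M
  set K : ℕ := 24 * m + 24 with hK
  have hconf := start_confined K
  obtain ⟨p, hp, hper⟩ := confined_periodic _ _ hconf
  have hne0 : ∃ q, start K q ≠ blank := by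
    by_contra hcon
    push Not at hcon
    have h1 : population (start K) = 0 := by
      rw [population_eq_sum (start K) ∅ (fun q _ => hcon q)]
      simp
    have h2 := hcon (0, 0)
    simp [start, band, bandD, blank] at h2
  refine ⟨start K, ⟨confined_finite _ _ hconf, hne0⟩, p, hp, hper, ?_⟩
  -- the set of populations is finite and nonempty
  have hfin : (populations rule (start K) p).Finite := by
    have : populations rule (start K) p ⊆
        ((Finset.range p).image fun i => population ((step rule)^[i] (start K)) : Finset ℕ) := by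
      rintro n ⟨i, hi, rfl⟩
      simp only [Finset.coe_image, Set.mem_image, Finset.coe_range, Set.mem_Iio]
      exact ⟨i, hi, rfl⟩
    exact (Finset.finite_toSet _).subset this
  have hmem : ∀ n : ℕ, population ((step rule)^[n] (start K)) ∈
      populations rule (start K) p := by
    intro n
    refine ⟨n % p, Nat.mod_lt _ (by omega), ?_⟩
    rw [Function.IsPeriodicPt.iterate_mod_apply (show Function.IsPeriodicPt (step rule) p
      (start K) from hper)]
  have hnonempty : (populations rule (start K) p).Nonempty := ⟨_, hmem 0⟩
  have hmax : IsGreatest (populations rule (start K) p) (sSup (populations rule (start K) p)) :=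
    ⟨Nat.sSup_mem hnonempty hfin.bddAbove, fun n hn => le_csSup hfin.bddAbove hn⟩
  have hmin : IsLeast (populations rule (start K) p) (sInf (populations rule (start K) p)) :=
    ⟨Nat.sInf_mem hnonempty, fun n hn => Nat.sInf_le hn⟩
  refine ⟨_, _, hmax, hmin, ?_⟩
  set a := sSup (populations rule (start K) p) with ha
  set b := sInf (populations rule (start K) p) with hb
  -- every member of the orbit has a particle
  have hpos : 1 ≤ b := by
    obtain ⟨i, hi, hbi⟩ := hmin.1
    rw [hbi]
    have hci := confined_iterate _ _ hconf i
    have hne : ∃ q, (step rule)^[i] (start K) q ≠ blank := by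
      by_contra hcon
      push Not at hcon
      obtain ⟨q, hq⟩ := hne0
      apply hq
      have hz : (step rule)^[i] (start K) = fun _ => blank := funext hcon
      have hz0 : step rule (fun _ => blank) = fun _ => blank := by
        funext q; simp [step, blank, rule]
      have hzi : (step rule)^[i] (fun _ => blank) = fun _ => blank := by
        clear hz hi hbi hci hcon
        induction i with
        | zero => rfl
        | succ n ih => rw [Function.iterate_succ_apply, hz0, ih]
      have := ((step_injective rule rule_bijective.1).iterate i) (hz.trans hzi.symm)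
      rw [this]
    obtain ⟨q, hq⟩ := hne
    have := card_le_population _ (confined_finite _ _ hci) {q} (by
      intro r hr; rw [Finset.mem_singleton] at hr; rw [hr]; exact hq)
    simpa using this
  have hbig : (K + 1) * (K + 3) ≤ a := (late_population K).trans (hmax.2 (hmem K))
  have hsmall : b ≤ 12 * (2 * K + 1) := (hmin.2 (hmem 0)).trans (start_population_le K)
  have hlt : m * b < a := by
    calc m * b ≤ m * (12 * (2 * K + 1)) := Nat.mul_le_mul_left _ hsmall
      _ < (K + 1) * (K + 3) := by rw [hK]; nlinarith
      _ ≤ a := hbig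
  have hbpos : (0 : ℝ) < (b : ℝ) := by exact_mod_cast hpos
  rw [lt_div_iff₀ hbpos]
  have h3 : (m : ℝ) * (b : ℝ) < (a : ℝ) := by exact_mod_cast hlt
  have h4 : M * (b : ℝ) ≤ (m : ℝ) * (b : ℝ) := mul_le_mul_of_nonneg_right hm.le hbpos.le
  exact h4.trans_lt h3

end Pool.Agent.Results.MP_b5d889_lc.UnboundedRatio
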